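import Pool.Agent.Q100.STreeX

/-!
# The unit ball of the stopping time space has a countable weak `π`-base

The definitions are in `Pool/Agent/Q100/STreeDefs.lean` and `Pool/Agent/Q100/WBDefs.lean`.
-/

set_option autoImplicit false

namespace Pool.Agent.Results.MP_66f42e_an.CountablePiBase

open Q100.ST

/-- Affirmative answer to Q1: the closed unit ball of the stopping time space, with the relative
weak topology, admits a countable `π`-base. -/
theorem result : ∃ 𝒰 : Set (Set (Metric.closedBall (0 : X) 1)), 𝒰.Countable ∧
    (∀ U ∈ 𝒰, U.Nonempty ∧ @IsOpen _ (ballWeak X) U) ∧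
    ∀ W : Set (Metric.closedBall (0 : X) 1), @IsOpen _ (ballWeak X) W → W.Nonempty →
      ∃ U ∈ 𝒰, U ⊆ W :=
  main

end Pool.Agent.Results.MP_66f42e_an.CountablePiBase
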